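import Pool.Agent.H88.MCR.Stmts

namespace Pool.MCR

theorem in1_thm : IN1_S := by
  intro s a b c d h
  have hb : ∀ a b c : ℝ, Btw a b c → 0 < (c - a) * (b - c) := by
    rintro a b c (⟨h1, h2⟩ | ⟨h1, h2⟩)
    · exact mul_pos (by linarith) (by linarith)
    · exact mul_pos_of_neg_of_neg (by linarith) (by linarith)
  have ho : ∀ a b d : ℝ, Out a b d → (d - a) * (b - d) < 0 := by
    rintro a b d (⟨h1, h2⟩ | ⟨h1, h2⟩)
    · exact mul_neg_of_neg_of_pos (by linarith) (by linarith)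
    · exact mul_neg_of_pos_of_neg (by linarith) (by linarith)
  have hneg : ((c - a) * (b - c)) * ((d - a) * (b - d)) < 0 := by
    rcases h with ⟨h1, h2⟩ | ⟨h1, h2⟩
    · exact mul_neg_of_pos_of_neg (hb _ _ _ h1) (ho _ _ _ h2)
    · exact mul_neg_of_neg_of_pos (ho _ _ _ h2) (hb _ _ _ h1)
  have hD : (a + b) - (c + d) ≠ 0 := by
    intro h0
    have e1 : d - a = b - c := by linarith
    have e2 : b - d = c - a := by linarith
    rw [e1, e2] at hneg
    nlinarith [mul_self_nonneg ((c - a) * (b - c))]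
  obtain ⟨D, hDd⟩ : ∃ D, D = (a + b) - (c + d) := ⟨_, rfl⟩
  rw [← hDd] at hD
  obtain ⟨x, hx⟩ : ∃ x, x = (a * b - c * d) / D := ⟨_, rfl⟩
  have hxD : x * D = a * b - c * d := by rw [hx]; exact div_mul_cancel₀ _ hD
  have hfg : (x - a) * (b - x) = (x - c) * (d - x) := by
    rw [hDd] at hxD
    nlinarith
  have hf : (x - a) * (b - x) * (D * D) = -(((c - a) * (b - c)) * ((d - a) * (b - d))) := by
    have h1 : (x - a) * D = -((a - c) * (a - d)) := by
      have : (x - a) * D = x * D - a * D := by ring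
      rw [this, hxD, hDd]; ring
    have h2 : (b - x) * D = (b - c) * (b - d) := by
      have : (b - x) * D = b * D - x * D := by ring
      rw [this, hxD, hDd]; ring
    have : (x - a) * (b - x) * (D * D) = ((x - a) * D) * ((b - x) * D) := by ring
    rw [this, h1, h2]; ring
  have hDD : 0 < D * D := mul_self_pos.mpr hD
  have hpos : 0 < (x - a) * (b - x) := by
    have : 0 < (x - a) * (b - x) * (D * D) := by rw [hf]; linarith
    exact pos_of_mul_pos_left this hDD.le
  obtain ⟨e, he, he0⟩ : ∃ e : ℝ, e = (if s = true then 1 else -1) ∧ e ≠ 0 :=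
    ⟨_, rfl, by split_ifs <;> norm_num⟩
  refine ⟨(x, e * ((x - a) * (b - x))), mul_ne_zero he0 hpos.ne', ?_⟩
  ext ⟨u, v⟩
  simp only [arcSet, Set.mem_inter_iff, Set.mem_ofPred_eq, ← he, Set.mem_singleton_iff,
    Prod.mk.injEq]
  constructor
  · rintro ⟨⟨_, h2⟩, _, h4⟩
    have h5 : (u - a) * (b - u) = (u - c) * (d - u) := mul_left_cancel₀ he0 (by rw [← h2, h4])
    have h6 : u * D = a * b - c * d := by rw [hDd]; nlinarith
    have h7 : u = x := mul_right_cancel₀ hD (by rw [h6, hxD])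
    subst h7
    exact ⟨rfl, h2⟩
  · rintro ⟨rfl, rfl⟩
    exact ⟨⟨hpos.le, rfl⟩, by rw [← hfg]; exact hpos.le, by rw [hfg]⟩

end Pool.MCR
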